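import Pool.Agent.P.MP_b43b3b_co.Defs
import Pool.Agent.P.MP_b43b3b_co.Main

namespace Pool.Agent.Results.MP_b43b3b_co.Triangles

universe u

open Pool.Agent.P.MP_b43b3b_co

/-- Every reversal sequence of a tournament can be replaced by one consisting of 3-cycles. -/
theorem result (V : Type u) (D : V → V → Prop) (hD : IsTournament D)
    (f : Ordinal.{u} → List V) (α : Ordinal.{u}) (E : V → V → Prop) (h : RS D f α E) :
    ∃ (g : Ordinal.{u} → List V) (β : Ordinal.{u}),
      (∀ i < β, (g i).length = 3) ∧ RS D g β E :=
  main hD h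

end Pool.Agent.Results.MP_b43b3b_co.Triangles
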